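import Pool.Agent.H49.CE.Targets

/-!
# Critical exponents: module A3, loss of edges under contraction
-/

set_option autoImplicit false

noncomputable section

namespace CE.H11

open scoped Classical

theorem loss : T_LOSS := by
  intro F _ _ V _ _ _ C D g hD hg
  set q := Fintype.card F with hq
  set S := Submodule.span F {g} with hS
  set π : V → V ⧸ S := fun x => S.mkQ x with hπ
  have hπeq : ∀ x y : V, π x = π y ↔ x - y ∈ S := by
    intro x y
    simp only [hπ, Submodule.mkQ_apply]
    exact Submodule.Quotient.eq S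
  -- fibres
  set fib : (V ⧸ S) → Finset V := fun l => C.filter (fun x => π x = l) with hfib
  have hmemfib : ∀ l x, x ∈ fib l ↔ x ∈ C ∧ π x = l := fun l x => Finset.mem_filter
  set t : (V ⧸ S) → ℕ := fun l => (fib l).card with ht
  have hCq : Cq F g C = C.image π := rfl
  have ht1 : ∀ l ∈ Cq F g C, 1 ≤ t l := by
    intro l hl
    rw [hCq] at hl
    obtain ⟨x, hx, rfl⟩ := Finset.mem_image.1 hl
    exact Finset.card_pos.2 ⟨x, (hmemfib _ _).2 ⟨hx, rfl⟩⟩
  have hSfin : Finite S := inferInstance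
  have hScard : Nat.card S ≤ q := by
    have h1 : Nat.card S = Nat.card F ^ Module.finrank F S := Module.natCard_eq_pow_finrank
    rw [h1, Nat.card_eq_fintype_card, ← hq]
    have h2 : Module.finrank F S ≤ 1 := by
      have := finrank_span_le_card (R := F) ({g} : Set V)
      simpa using this
    calc q ^ Module.finrank F S ≤ q ^ 1 := Nat.pow_le_pow_right Fintype.card_pos h2
      _ = q := pow_one q
  have htq : ∀ l, t l ≤ q := by
    intro l
    rcases (fib l).eq_empty_or_nonempty with h | ⟨x0, hx0⟩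
    · simp only [ht]
      rw [h]
      simp
    · refine le_trans ?_ hScard
      have : Fintype S := Fintype.ofFinite _
      rw [Nat.card_eq_fintype_card, ← Finset.card_univ]
      refine Finset.card_le_card_of_injOn (fun x => if h : x - x0 ∈ S then (⟨x - x0, h⟩ : S) else 0)
        (fun _ _ => Finset.mem_coe.2 (Finset.mem_univ _)) ?_
      intro x hx y hy hxy
      rw [Finset.mem_coe, hmemfib] at hx hy
      rw [hmemfib] at hx0
      have h1 : x - x0 ∈ S := (hπeq _ _).1 (hx.2.trans hx0.2.symm)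
      have h2 : y - x0 ∈ S := (hπeq _ _).1 (hy.2.trans hx0.2.symm)
      simp only [dif_pos h1, dif_pos h2, Subtype.mk.injEq] at hxy
      exact sub_left_injective hxy
  have hsumt : ∑ l ∈ Cq F g C, t l = C.card := by
    rw [hCq, Finset.card_eq_sum_card_image π C]
  -- symmetry of D
  have hsymm : ∀ d, d ∈ D → -d ∈ D := by
    intro d hd
    have := hD.2 (-1) (neg_ne_zero.2 one_ne_zero) d hd
    rwa [neg_one_smul] at this
  have hneg : ∀ x y : V, x - y ∈ D ↔ y - x ∈ D := by
    intro x y
    constructor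
    · intro h
      have := hsymm _ h
      rwa [neg_sub] at this
    · intro h
      have := hsymm _ h
      rwa [neg_sub] at this
  -- the counts
  set e : (V ⧸ S) → (V ⧸ S) → Finset (V × V) := fun l l' =>
    (fib l ×ˢ fib l').filter (fun p => p.1 - p.2 ∈ D) with he
  set T1 : (V ⧸ S) → (V ⧸ S) → Finset (V × (V × V)) := fun l l' =>
    (fib l ×ˢ (fib l ×ˢ fib l')).filter (fun p => p.1 ≠ p.2.1 ∧ p.1 - p.2.2 ∈ D ∧ p.2.1 - p.2.2 ∈ D)
    with hT1
  have hesymm : ∀ l l', (e l l').card = (e l' l).card := by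
    intro l l'
    refine Finset.card_bij' (fun p _ => (p.2, p.1)) (fun p _ => (p.2, p.1)) ?_ ?_ ?_ ?_
    · rintro ⟨x, y⟩ h
      rw [he, Finset.mem_filter, Finset.mem_product] at h ⊢
      exact ⟨⟨h.1.2, h.1.1⟩, (hneg _ _).1 h.2⟩
    · rintro ⟨x, y⟩ h
      rw [he, Finset.mem_filter, Finset.mem_product] at h ⊢
      exact ⟨⟨h.1.2, h.1.1⟩, (hneg _ _).1 h.2⟩
    · intros; rfl
    · intros; rfl
  -- the case of a single point
  have hsingle : ∀ l l', l ≠ l' → t l' = 1 → 2 * (e l l').card ≤ 2 + (T1 l l').card := by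
    intro l l' hll h1
    obtain ⟨y, hy⟩ := Finset.card_eq_one.1 h1
    set X := (fib l).filter (fun x => x - y ∈ D) with hX
    have h2 : (e l l').card ≤ X.card := by
      refine Finset.card_le_card_of_injOn (fun p => p.1) ?_ ?_
      · rintro ⟨x, y'⟩ h
        rw [Finset.mem_coe, he, Finset.mem_filter, Finset.mem_product, hy, Finset.mem_singleton] at h
        simp only at h
        rw [Finset.mem_coe, hX, Finset.mem_filter]
        refine ⟨h.1.1, ?_⟩
        have := h.2
        rwa [h.1.2] at this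
      · rintro ⟨x, y1⟩ h ⟨x', y2⟩ h' hxx
        rw [Finset.mem_coe, he, Finset.mem_filter, Finset.mem_product, hy, Finset.mem_singleton] at h h'
        simp only at h h' hxx
        rw [hxx, h.1.2, h'.1.2]
    have h3 : X.offDiag.card ≤ (T1 l l').card := by
      refine Finset.card_le_card_of_injOn (fun p => (p.1, (p.2, y))) ?_ ?_
      · rintro ⟨x, x'⟩ h
        obtain ⟨a1, a2, a3⟩ := Finset.mem_offDiag.1 (Finset.mem_coe.1 h)
        have b1 := Finset.mem_filter.1 a1
        have b2 := Finset.mem_filter.1 a2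
        rw [Finset.mem_coe, hT1, Finset.mem_filter, Finset.mem_product, Finset.mem_product, hy]
        exact ⟨⟨b1.1, b2.1, Finset.mem_singleton_self y⟩, a3, b1.2, b2.2⟩
      · rintro ⟨x, x'⟩ - ⟨x1, x1'⟩ - h
        simp only [Prod.mk.injEq] at h
        rw [h.1, h.2.1]
    rw [Finset.offDiag_card] at h3
    have h4 : 2 * X.card ≤ 2 + (X.card * X.card - X.card) := by
      rcases Nat.lt_or_ge X.card 3 with h | h
      · interval_cases X.card <;> simp
      · have : 3 * X.card ≤ X.card * X.card := Nat.mul_le_mul_right _ h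
        omega
    omega
  have hedge : ∀ l l', l ≠ l' → (e l l').Nonempty → l - l' ∈ Dq F g D := by
    rintro l l' hll ⟨⟨x, y⟩, h⟩
    rw [he, Finset.mem_filter, Finset.mem_product, hmemfib, hmemfib] at h
    simp only at h
    unfold Dq
    rw [Finset.mem_erase]
    refine ⟨sub_ne_zero.2 hll, Finset.mem_image.2 ⟨x - y, h.2, ?_⟩⟩
    rw [← h.1.1.2, ← h.1.2.2]
    simp only [hπ]
    rw [map_sub]
  have hmemC2 : ∀ l, l ∈ C2 F g C ↔ l ∈ Cq F g C ∧ 2 ≤ t l := by
    intro l
    unfold C2
    rw [Finset.mem_filter]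
  -- the pointwise inequality
  have hpt : ∀ l ∈ Cq F g C, ∀ l' ∈ Cq F g C, 2 * (e l l').card ≤
      2 * (if l - l' ∈ Dq F g D then 1 else 0) +
      2 * q ^ 2 * (if l ∈ C2 F g C ∧ l' ∈ C2 F g C ∧ l - l' ∈ Dq F g D then 1 else 0) +
      (T1 l l').card + (T1 l' l).card + 2 * (if l = l' then q * (t l - 1) else 0) := by
    intro l hl l' hl'
    rcases eq_or_ne l l' with rfl | hll
    · rw [if_pos (rfl : l = l)]
      have h1 : (e l l).card ≤ (fib l).offDiag.card := by
        refine Finset.card_le_card ?_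
        rintro ⟨x, y⟩ h
        rw [he, Finset.mem_filter, Finset.mem_product] at h
        simp only at h
        rw [Finset.mem_offDiag]
        refine ⟨h.1.1, h.1.2, ?_⟩
        rintro heq
        simp only at heq
        rw [heq, sub_self] at h
        exact hD.1 h.2
      rw [Finset.offDiag_card] at h1
      have h2 : t l * t l - t l ≤ q * (t l - 1) := by
        have h3 : t l * t l - t l = t l * (t l - 1) := by
          rw [Nat.mul_sub, mul_one]
        rw [h3]
        exact Nat.mul_le_mul_right _ (htq l)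
      have h4 : (e l l).card ≤ q * (t l - 1) := h1.trans h2
      omega
    · rcases (e l l').eq_empty_or_nonempty with h0 | h0
      · rw [h0, Finset.card_empty]
        simp
      · have hd := hedge l l' hll h0
        rw [if_pos hd]
        by_cases hc2 : l ∈ C2 F g C ∧ l' ∈ C2 F g C
        · rw [if_pos ⟨hc2.1, hc2.2, hd⟩]
          have h1 : (e l l').card ≤ q ^ 2 := by
            calc (e l l').card ≤ (fib l ×ˢ fib l').card := Finset.card_filter_le _ _
              _ = t l * t l' := Finset.card_product _ _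
              _ ≤ q * q := Nat.mul_le_mul (htq l) (htq l')
              _ = q ^ 2 := (sq q).symm
          have h2 : 2 * q ^ 2 * 1 = 2 * q ^ 2 := mul_one _
          rw [h2]
          omega
        · rw [if_neg (fun h => hc2 ⟨h.1, h.2.1⟩)]
          rw [not_and_or] at hc2
          rcases hc2 with h | h
          · have h1 : t l = 1 := by
              have h2 := ht1 l hl
              have h3 : ¬ 2 ≤ t l := fun h3 => h ((hmemC2 l).2 ⟨hl, h3⟩)
              omega
            have h4 := hsingle l' l hll.symm h1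
            rw [hesymm l' l] at h4
            omega
          · have h1 : t l' = 1 := by
              have h2 := ht1 l' hl'
              have h3 : ¬ 2 ≤ t l' := fun h3 => h ((hmemC2 l').2 ⟨hl', h3⟩)
              omega
            have h4 := hsingle l l' hll h1
            omega
  -- the sums
  have hsumE : ∑ l ∈ Cq F g C, ∑ l' ∈ Cq F g C, (e l l').card = EE C D := by
    unfold EE
    rw [← Finset.sum_product', Finset.card_eq_sum_card_fiberwise
      (f := fun p : V × V => (π p.1, π p.2)) (t := Cq F g C ×ˢ Cq F g C)]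
    · refine Finset.sum_congr rfl ?_
      rintro ⟨l, l'⟩ -
      congr 1
      ext ⟨x, y⟩
      simp only [he, Finset.mem_filter, Finset.mem_product, hmemfib, Prod.mk.injEq]
      tauto
    · rintro ⟨x, y⟩ h
      rw [Finset.mem_coe, Finset.mem_filter, Finset.mem_product] at h
      rw [Finset.mem_coe, Finset.mem_product]
      exact ⟨Finset.mem_image_of_mem π h.1.1, Finset.mem_image_of_mem π h.1.2⟩
  have hsumT : ∑ l ∈ Cq F g C, ∑ l' ∈ Cq F g C, (T1 l l').card = Tri F g C D := by
    unfold Tri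
    rw [← Finset.sum_product', Finset.card_eq_sum_card_fiberwise
      (f := fun p : V × (V × V) => (π p.1, π p.2.2)) (t := Cq F g C ×ˢ Cq F g C)]
    · refine Finset.sum_congr rfl ?_
      rintro ⟨l, l'⟩ -
      congr 1
      ext ⟨x, x', y⟩
      simp only [hT1, Finset.mem_filter, Finset.mem_product, hmemfib, Prod.mk.injEq]
      have h1 : x - x' ∈ S ↔ π x = π x' := (hπeq x x').symm
      constructor
      · rintro ⟨⟨⟨a1, a2⟩, ⟨a3, a4⟩, a5, a6⟩, a7, a8, a9⟩
        exact ⟨⟨⟨a1, a3, a5⟩, a7, h1.2 (a2.trans a4.symm), a8, a9⟩, a2, a6⟩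
      · rintro ⟨⟨⟨a1, a3, a5⟩, a7, a10, a8, a9⟩, a2, a6⟩
        exact ⟨⟨⟨a1, a2⟩, ⟨a3, (h1.1 a10).symm.trans a2⟩, a5, a6⟩, a7, a8, a9⟩
    · rintro ⟨x, x', y⟩ h
      rw [Finset.mem_coe, Finset.mem_filter, Finset.mem_product, Finset.mem_product] at h
      rw [Finset.mem_coe, Finset.mem_product]
      exact ⟨Finset.mem_image_of_mem π h.1.1, Finset.mem_image_of_mem π h.1.2.2⟩
  have hsumT' : ∑ l ∈ Cq F g C, ∑ l' ∈ Cq F g C, (T1 l' l).card = Tri F g C D := by
    rw [Finset.sum_comm, hsumT]
  have hsumD : ∑ l ∈ Cq F g C, ∑ l' ∈ Cq F g C, (if l - l' ∈ Dq F g D then 1 else 0) =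
      EE (Cq F g C) (Dq F g D) := by
    unfold EE
    rw [← Finset.sum_product', Finset.card_filter]
  have hsumC : ∑ l ∈ Cq F g C, ∑ l' ∈ Cq F g C,
      (if l ∈ C2 F g C ∧ l' ∈ C2 F g C ∧ l - l' ∈ Dq F g D then 1 else 0) =
      EE (C2 F g C) (Dq F g D) := by
    unfold EE
    rw [← Finset.sum_product', ← Finset.card_filter]
    congr 1
    ext ⟨l, l'⟩
    simp only [Finset.mem_filter, Finset.mem_product]
    have h1 := fun l => (hmemC2 l).1
    constructor
    · rintro ⟨-, h2, h3, h4⟩
      exact ⟨⟨h2, h3⟩, h4⟩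
    · rintro ⟨⟨h2, h3⟩, h4⟩
      exact ⟨⟨(h1 l h2).1, (h1 l' h3).1⟩, h2, h3, h4⟩
  have hsumL : ∑ l ∈ Cq F g C, ∑ l' ∈ Cq F g C, (if l = l' then q * (t l - 1) else 0) =
      q * (C.card - (Cq F g C).card) := by
    have h1 : ∀ l ∈ Cq F g C, ∑ l' ∈ Cq F g C, (if l = l' then q * (t l - 1) else 0) =
        q * (t l - 1) := by
      intro l hl
      rw [Finset.sum_ite_eq, if_pos hl]
    rw [Finset.sum_congr rfl h1, ← Finset.mul_sum]
    congr 1
    rw [Finset.sum_tsub_distrib _ ht1, hsumt, Finset.sum_const, smul_eq_mul, mul_one]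
  have htot : ∑ l ∈ Cq F g C, ∑ l' ∈ Cq F g C, 2 * (e l l').card ≤
      ∑ l ∈ Cq F g C, ∑ l' ∈ Cq F g C, (2 * (if l - l' ∈ Dq F g D then 1 else 0) +
      2 * q ^ 2 * (if l ∈ C2 F g C ∧ l' ∈ C2 F g C ∧ l - l' ∈ Dq F g D then 1 else 0) +
      (T1 l l').card + (T1 l' l).card + 2 * (if l = l' then q * (t l - 1) else 0)) :=
    Finset.sum_le_sum fun l hl => Finset.sum_le_sum fun l' hl' => hpt l hl l' hl'
  simp only [Finset.sum_add_distrib, ← Finset.mul_sum] at htot
  rw [hsumE, hsumT, hsumT', hsumD, hsumC, hsumL] at htot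
  have h1 : 2 * q ^ 2 * EE (C2 F g C) (Dq F g D) = 2 * (q ^ 2 * EE (C2 F g C) (Dq F g D)) := by ring
  rw [h1] at htot
  omega

end CE.H11
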