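import Pool.Agent.H11.CE.Base

/-!
# Critical exponents: module B4, existence of coloop free sets
-/

set_option autoImplicit false

noncomputable section

namespace CE.H11

open scoped Classical

theorem ex : T_EX := by
  intro F _ _ V _ _ _ ι v N tau W R htau hdens hRN hRW
  -- a minimal subset whose span contains `W ⊓ sp R`
  obtain ⟨B0, hB0, hmin⟩ := Finset.exists_minimal (s := R.powerset.filter fun B =>
    W ⊓ sp F v R ≤ sp F v B) ⟨R, Finset.mem_filter.2 ⟨Finset.mem_powerset_self R, inf_le_right⟩⟩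
  rw [Finset.mem_filter, Finset.mem_powerset] at hB0
  obtain ⟨hB0R, hB0W⟩ := hB0
  have hmin' : ∀ i ∈ B0, ¬ W ⊓ sp F v R ≤ sp F v (B0.erase i) := by
    intro i hi hcon
    have h1 := hmin (Finset.mem_filter.2 ⟨Finset.mem_powerset.2
      ((Finset.erase_subset i B0).trans hB0R), hcon⟩) (Finset.erase_subset i B0)
    exact Finset.notMem_erase i B0 (h1 hi)
  have hins : ∀ i ∈ B0, sp F v B0 = Submodule.span F {v i} ⊔ sp F v (B0.erase i) := by
    intro i hi
    conv_lhs => rw [← Finset.insert_erase hi]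
    rw [sp_insert]
  have hind : Ind F v ⊥ B0 := by
    rw [ind_iff_notMem]
    intro i hi hcon
    rw [bot_sup_eq] at hcon
    refine hmin' i hi (hB0W.trans ?_)
    rw [hins i hi]
    exact sup_le ((Submodule.span_singleton_le_iff_mem _ _).2 hcon) le_rfl
  have hcol : ∀ i ∈ B0, v i ∈ W ⊔ sp F v (B0.erase i) := by
    intro i hi
    by_contra hcon
    refine hmin' i hi fun w hw => ?_
    have h1 := hB0W hw
    rw [hins i hi, Submodule.mem_sup] at h1
    obtain ⟨y, hy, s, hs, h⟩ := h1
    obtain ⟨c, rfl⟩ := Submodule.mem_span_singleton.1 hy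
    rcases eq_or_ne c 0 with rfl | hc
    · rw [zero_smul, zero_add] at h
      rwa [← h]
    · exfalso
      apply hcon
      have h2 : v i = c⁻¹ • w + -(c⁻¹ • s) := by
        rw [← h, smul_add, smul_smul, inv_mul_cancel₀ hc, one_smul]
        abel
      rw [h2]
      exact Submodule.add_mem_sup (W.smul_mem _ hw.1)
        (Submodule.neg_mem _ (Submodule.smul_mem _ _ hs))
  have hWB : W ⊓ sp F v B0 = W ⊓ sp F v R :=
    le_antisymm (inf_le_inf_left _ (sp_mono v hB0R)) (le_inf inf_le_left hB0W)
  -- a basis modulo `W`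
  obtain ⟨I, hI, hIind, hIsp⟩ := exists_basis v W B0
  set j := I.card with hj
  have hrk : Module.finrank F (W ⊔ sp F v B0 : Submodule F V) = Module.finrank F W + j := by
    rw [← hIsp, finrank_ind hIind]
  have hdim : B0.card = j + Module.finrank F (W ⊓ sp F v R : Submodule F V) := by
    have h1 := Submodule.finrank_sup_add_finrank_inf_eq W (sp F v B0)
    rw [hWB, hrk] at h1
    have h2 := finrank_ind hind
    rw [bot_sup_eq, finrank_bot] at h2
    omega
  have hexb : ∀ i ∈ I, ∃ b ∈ B0, b ∉ I ∧ v b ∉ W ⊔ sp F v (I.erase i) := by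
    intro i hi
    by_contra hcon
    push Not at hcon
    have h1 : W ⊔ sp F v (B0.erase i) ≤ W ⊔ sp F v (I.erase i) := by
      refine sup_le le_sup_left ((sp_le_iff v _ _).2 fun b hb => ?_)
      obtain ⟨hbi, hb⟩ := Finset.mem_erase.1 hb
      by_cases hbI : b ∈ I
      · exact (le_sup_right : sp F v (I.erase i) ≤ _) (mem_sp v (Finset.mem_erase.2 ⟨hbi, hbI⟩))
      · exact hcon b hb hbI
    exact (ind_iff_notMem v W I).1 hIind i hi (h1 (hcol i (hI hi)))
  choose! b hb using hexb
  set B := I ∪ I.image b with hB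
  have hBB0 : B ⊆ B0 := by
    refine Finset.union_subset hI fun x hx => ?_
    obtain ⟨i, hi, rfl⟩ := Finset.mem_image.1 hx
    exact (hb i hi).1
  have hIB : I ⊆ B := Finset.subset_union_left
  have hBI : W ⊔ sp F v B = W ⊔ sp F v I := by
    apply le_antisymm
    · rw [hIsp]
      exact sup_le_sup_left (sp_mono v hBB0) _
    · exact sup_le_sup_left (sp_mono v hIB) _
  have hBcard : j ≤ B.card := Finset.card_le_card hIB
  have hBcard' : B.card ≤ 2 * j := by
    refine (Finset.card_union_le _ _).trans ?_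
    have := Finset.card_image_le (s := I) (f := b)
    omega
  refine ⟨B, j, B.card - j, hBB0.trans hB0R, ?_, by omega, ?_⟩
  · unfold BB
    rw [Finset.mem_filter, Finset.mem_powerset]
    refine ⟨(hBB0.trans hB0R).trans hRN, Ind.mono' hind hBB0, fun i hi => hRW i (hB0R (hBB0 hi)),
      by omega, by rw [hBI, finrank_ind hIind], ?_⟩
    intro i hi
    by_cases hiI : i ∈ I
    · obtain ⟨h1, h2, h3⟩ := hb i hiI
      have h4 : v (b i) ∈ (W ⊔ sp F v (I.erase i)) ⊔ Submodule.span F {v i} := by
        have h5 : v (b i) ∈ W ⊔ sp F v I := by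
          rw [hIsp]
          exact (le_sup_right : sp F v B0 ≤ _) (mem_sp v h1)
        have h6 : sp F v I = Submodule.span F {v i} ⊔ sp F v (I.erase i) := by
          conv_lhs => rw [← Finset.insert_erase hiI]
          rw [sp_insert]
        rw [h6] at h5
        rw [sup_assoc, sup_comm (sp F v (I.erase i))]
        exact h5
      have h5 := exchange v _ h4 h3
      refine (sup_le (sup_le_sup_left (sp_mono v (Finset.erase_subset_erase i hIB)) _) ?_ :
        (W ⊔ sp F v (I.erase i)) ⊔ Submodule.span F {v (b i)} ≤ W ⊔ sp F v (B.erase i)) h5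
      rw [Submodule.span_singleton_le_iff_mem]
      refine (le_sup_right : sp F v (B.erase i) ≤ _) (mem_sp v (Finset.mem_erase.2 ⟨?_, ?_⟩))
      · rintro heq
        rw [heq] at h2
        exact h2 hiI
      · exact Finset.mem_union_right _ (Finset.mem_image_of_mem b hiI)
    · have h1 : v i ∈ W ⊔ sp F v I := by
        rw [← hBI]
        exact (le_sup_right : sp F v B ≤ _) (mem_sp v hi)
      refine (sup_le_sup_left (sp_mono v ?_) _ : W ⊔ sp F v I ≤ W ⊔ sp F v (B.erase i)) h1
      intro x hx
      refine Finset.mem_erase.2 ⟨?_, hIB hx⟩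
      rintro rfl
      exact hiI hx
  · have h1 := hdens (W ⊔ sp F v B0) le_sup_left
    rw [hrk] at h1
    have h2 : (B0.card : ℝ) ≤ ((N.filter (fun i => v i ∈ W ⊔ sp F v B0 ∧ v i ∉ W)).card : ℝ) := by
      have h5 : B0 ⊆ N.filter (fun i => v i ∈ W ⊔ sp F v B0 ∧ v i ∉ W) := fun i hi =>
        Finset.mem_filter.2 ⟨hRN (hB0R hi),
          (le_sup_right : sp F v B0 ≤ W ⊔ sp F v B0) (mem_sp v hi), hRW i (hB0R hi)⟩
      exact_mod_cast Finset.card_le_card h5
    rw [hdim] at h2
    push_cast at h1 h2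
    have h3 : (0 : ℝ) ≤ j := by positivity
    have h4 : tau * ((Module.finrank F W : ℝ) + j - Module.finrank F W) = tau * j := by ring
    linarith

end CE.H11
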