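import Pool.Agent.H11.CE.Base

/-!
# Critical exponents: module B5, Kempe changes
-/

set_option autoImplicit false

noncomputable section

namespace CE.H11

open scoped Classical

section

variable {F : Type} [Field F] [Finite F] {V ι : Type} [AddCommGroup V] [Module F V] [Finite V]
  {E : Type} [AddCommGroup E] [Module F E] [Finite E]

theorem kempe_fam (v : ι → V) (W : Submodule F V) (Lam : Submodule F E) (J : Finset ι) :
    ∃ G : Finset (V →ₗ[F] Lam), (∀ g ∈ G, ∀ i ∈ J, g (v i) = 0) ∧
      (∀ g ∈ G, ∀ g' ∈ G, (∀ w ∈ W, g w = g' w) → g = g') ∧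
      G.card = Nat.card Lam ^ (Module.finrank F W -
        Module.finrank F (W ⊓ sp F v J : Submodule F V)) := by
  obtain ⟨C, hC⟩ := Submodule.exists_isCompl (W ⊓ sp F v J)
  set X := C ⊓ W with hX
  have h1 : (W ⊓ sp F v J) ⊔ X = W := by
    rw [hX, ← sup_inf_assoc_of_le C (inf_le_left : W ⊓ sp F v J ≤ W), hC.sup_eq_top, top_inf_eq]
  have h2 : (W ⊓ sp F v J) ⊓ X = ⊥ := by
    rw [hX, ← inf_assoc, hC.inf_eq_bot, bot_inf_eq]
  have h3 : X ⊓ sp F v J = ⊥ := by
    rw [← h2, hX]
    apply le_antisymm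
    · exact le_inf (le_inf (inf_le_left.trans inf_le_right) inf_le_right) inf_le_left
    · exact le_inf inf_le_right (inf_le_left.trans inf_le_right)
  have hdim : Module.finrank F X = Module.finrank F W -
      Module.finrank F (W ⊓ sp F v J : Submodule F V) := by
    have := Submodule.finrank_sup_add_finrank_inf_eq (W ⊓ sp F v J) X
    rw [h1, h2, finrank_bot] at this
    omega
  obtain ⟨r, hr⟩ := LinearMap.exists_leftInverse_of_injective
    ((sp F v J).mkQ ∘ₗ X.subtype) (by
      rw [eq_bot_iff]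
      intro x hx
      rw [LinearMap.mem_ker, LinearMap.comp_apply, Submodule.mkQ_apply,
        Submodule.Quotient.mk_eq_zero] at hx
      have : (x : V) ∈ X ⊓ sp F v J := ⟨x.2, hx⟩
      rw [h3, Submodule.mem_bot] at this
      rw [Submodule.mem_bot]
      exact Subtype.ext this)
  have hr' : ∀ x : X, r ((sp F v J).mkQ (x : V)) = x := fun x => by
    have := LinearMap.congr_fun hr x
    simpa using this
  set φ : (X →ₗ[F] Lam) → (V →ₗ[F] Lam) := fun μ => μ ∘ₗ r ∘ₗ (sp F v J).mkQ with hφ
  have hφX : ∀ (μ : X →ₗ[F] Lam) (x : X), φ μ (x : V) = μ x := by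
    intro μ x
    simp only [hφ, LinearMap.comp_apply]
    rw [hr']
  have hinj : Function.Injective φ := by
    intro μ μ' h
    refine LinearMap.ext fun x => ?_
    rw [← hφX, ← hφX, h]
  have : Fintype (X →ₗ[F] Lam) := Fintype.ofFinite _
  refine ⟨Finset.univ.image φ, ?_, ?_, ?_⟩
  · intro g hg i hi
    obtain ⟨μ, -, rfl⟩ := Finset.mem_image.1 hg
    simp only [hφ, LinearMap.comp_apply]
    have : (sp F v J).mkQ (v i) = 0 := by
      rw [Submodule.mkQ_apply, Submodule.Quotient.mk_eq_zero]
      exact mem_sp v hi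
    rw [this, map_zero, map_zero]
  · intro g hg g' hg' h
    obtain ⟨μ, -, rfl⟩ := Finset.mem_image.1 hg
    obtain ⟨μ', -, rfl⟩ := Finset.mem_image.1 hg'
    congr 1
    refine LinearMap.ext fun x => ?_
    rw [← hφX, ← hφX]
    exact h _ (Submodule.mem_inf.1 x.2).2
  · rw [Finset.card_image_of_injective _ hinj, Finset.card_univ, ← Nat.card_eq_fintype_card,
      natCard_hom, hdim]

end

theorem kempe : T_KEMPE := by
  intro F _ _ V _ _ _ E _ _ _ ι v T f W z Lam u
  choose G hG0 hGinj hGcard using fun J : Finset ι => kempe_fam v W Lam J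
  have : Fintype (V →ₗ[F] E) := Fintype.ofFinite _
  set S := {y | y ∈ YY F v T f W z ∧
    Module.finrank F (W ⊓ sp F v (TL F v T f Lam y) : Submodule F V) ≤ u} with hS
  set R := {y : V →ₗ[F] E | y ∈ Av F v T f ∧ ∀ w ∈ W, y w - z w ∈ Lam} with hR
  rw [Set.ncard_eq_toFinset_card' S, Set.ncard_eq_toFinset_card' R]
  set P : Finset (Σ _ : (V →ₗ[F] E), (V →ₗ[F] Lam)) :=
    S.toFinset.sigma fun y => G (TL F v T f Lam y) with hP
  have h1 : S.toFinset.card * Nat.card Lam ^ (Module.finrank F W - u) ≤ P.card := by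
    rw [hP, Finset.card_sigma, ← smul_eq_mul, ← Finset.sum_const]
    refine Finset.sum_le_sum fun y hy => ?_
    rw [hGcard]
    rw [Set.mem_toFinset] at hy
    exact Nat.pow_le_pow_right Nat.card_pos (Nat.sub_le_sub_left hy.2 _)
  refine h1.trans ?_
  refine Finset.card_le_card_of_injOn (fun p => p.1 + Lam.subtype ∘ₗ p.2) ?_ ?_
  · rintro ⟨y, g⟩ hp
    rw [Finset.mem_coe, hP, Finset.mem_sigma, Set.mem_toFinset] at hp
    obtain ⟨hy, hg⟩ := hp
    simp only at hy hg
    rw [Finset.mem_coe, Set.mem_toFinset]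
    refine ⟨?_, ?_⟩
    · intro i hi hcon
      have e1 : (y + Lam.subtype ∘ₗ g) (v i) = y (v i) + (g (v i) : E) := rfl
      rw [e1] at hcon
      have h2 : y (v i) - f i ∈ Lam := by
        have : y (v i) - f i = -(g (v i) : E) := by
          rw [← hcon]; abel
        rw [this]
        exact Lam.neg_mem (g (v i)).2
      have h3 : i ∈ TL F v T f Lam y := Finset.mem_filter.2 ⟨hi, h2⟩
      rw [hG0 _ g hg i h3, Submodule.coe_zero, add_zero] at hcon
      exact hy.1.1 i hi hcon
    · intro w hw
      have e1 : (y + Lam.subtype ∘ₗ g) w = y w + (g w : E) := rfl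
      rw [e1, hy.1.2 w hw, add_sub_cancel_left]
      exact (g w).2
  · rintro ⟨y, g⟩ hp ⟨y', g'⟩ hp' heq
    rw [Finset.mem_coe, hP, Finset.mem_sigma, Set.mem_toFinset] at hp hp'
    obtain ⟨hy, hg⟩ := hp
    obtain ⟨hy', hg'⟩ := hp'
    simp only at hy hg hy' hg' heq
    have e : ∀ x : V, y x + (g x : E) = y' x + (g' x : E) := fun x => LinearMap.congr_fun heq x
    have hT : TL F v T f Lam y = TL F v T f Lam y' := by
      unfold TL
      refine Finset.filter_congr fun i _ => ?_
      have h2 : y (v i) - f i = (y' (v i) - f i) + ((g' (v i) : E) - (g (v i) : E)) := by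
        have := e (v i)
        rw [eq_sub_of_add_eq this]
        abel
      rw [h2]
      exact Lam.add_mem_iff_left (Lam.sub_mem (g' (v i)).2 (g (v i)).2)
    rw [← hT] at hg'
    have hgg : g = g' := by
      refine hGinj _ g hg g' hg' fun w hw => ?_
      have := e w
      rw [hy.1.2 w hw, hy'.1.2 w hw] at this
      exact Subtype.ext (add_left_cancel this)
    subst hgg
    have hyy : y = y' := LinearMap.ext fun x => add_right_cancel (e x)
    subst hyy
    rfl

end CE.H11
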