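import Pool.Agent.H11.CE.Base

/-!
# Critical exponents: module B6, counting extensions
-/

set_option autoImplicit false

noncomputable section

namespace CE.H11

open scoped Classical

theorem ext : T_EXT := by
  intro F _ _ V _ _ _ E _ _ _ ι v T f W z Lam B M hBT hM hM'
  have : Fintype (V →ₗ[F] E) := Fintype.ofFinite _
  have : Fintype Lam := Fintype.ofFinite _
  obtain ⟨B', hB'B, hind, hsp⟩ := exists_basis v W B
  set S := {y | y ∈ YY F v T f W z ∧ B ⊆ TL F v T f Lam y} with hS
  rw [Set.ncard_eq_toFinset_card' S]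
  have hrk := finrank_ind hind
  rw [hsp] at hrk
  have hj : Module.finrank F (W ⊔ sp F v B : Submodule F V) - Module.finrank F W = B'.card := by
    omega
  rw [hj]
  -- the map to `Lam ^ B'`
  set Φ : (V →ₗ[F] E) → (B' → Lam) := fun y b =>
    if h : y (v b) - f b ∈ Lam then ⟨y (v b) - f b, h⟩ else 0 with hΦ
  have hfib : ∀ c ∈ (Finset.univ : Finset (B' → Lam)),
      (S.toFinset.filter fun y => Φ y = c).card ≤ ⌊M⌋₊ := by
    intro c _
    rcases (S.toFinset.filter fun y => Φ y = c).eq_empty_or_nonempty with h | ⟨y0, hy0⟩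
    · rw [h, Finset.card_empty]
      exact Nat.zero_le _
    · rw [Finset.mem_filter, Set.mem_toFinset] at hy0
      obtain ⟨⟨hy0Y, hy0B⟩, hy0c⟩ := hy0
      refine Nat.le_floor (le_trans ?_ (hM' y0))
      rw [Set.ncard_eq_toFinset_card']
      have h5 : (S.toFinset.filter fun y => Φ y = c) ⊆
          (YY F v (T \ B) f (W ⊔ sp F v B) y0).toFinset := by
        intro y hy
        rw [Finset.mem_filter, Set.mem_toFinset] at hy
        obtain ⟨⟨hyY, hyB⟩, hyc⟩ := hy
        rw [Set.mem_toFinset]
        refine ⟨fun i hi => hyY.1 i (Finset.mem_sdiff.1 hi).1, ?_⟩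
        have hle : W ⊔ sp F v B' ≤ LinearMap.eqLocus y y0 := by
          refine sup_le (fun w hw => ?_) ((sp_le_iff v _ _).2 fun i hi => ?_)
          · show y w = y0 w
            rw [hyY.2 w hw, hy0Y.2 w hw]
          · show y (v i) = y0 (v i)
            have h1 : y (v i) - f i ∈ Lam := (Finset.mem_filter.1 (hyB (hB'B hi))).2
            have h2 : y0 (v i) - f i ∈ Lam := (Finset.mem_filter.1 (hy0B (hB'B hi))).2
            have h3 := congr_fun (hyc.trans hy0c.symm) ⟨i, hi⟩
            simp only [hΦ] at h3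
            rw [dif_pos h1, dif_pos h2, Subtype.mk.injEq] at h3
            exact sub_left_injective h3
        intro w hw
        rw [← hsp] at hw
        exact hle hw
      exact_mod_cast Finset.card_le_card h5
  have h1 := Finset.card_le_mul_card_image_of_maps_to (s := S.toFinset) (f := Φ)
    (t := Finset.univ) (fun _ _ => Finset.mem_univ _) ⌊M⌋₊ hfib
  have h2 : (Finset.univ : Finset (B' → Lam)).card = Nat.card Lam ^ B'.card := by
    rw [Finset.card_univ, Fintype.card_fun, Nat.card_eq_fintype_card, Fintype.card_coe]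
  rw [h2] at h1
  calc ((S.toFinset.card : ℕ) : ℝ) ≤ ((⌊M⌋₊ * Nat.card Lam ^ B'.card : ℕ) : ℝ) := by exact_mod_cast h1
    _ = (⌊M⌋₊ : ℝ) * (Nat.card Lam : ℝ) ^ B'.card := by push_cast; ring
    _ ≤ M * (Nat.card Lam : ℝ) ^ B'.card :=
        mul_le_mul_of_nonneg_right (Nat.floor_le hM) (by positivity)
    _ = _ := mul_comm _ _

end CE.H11
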