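import Pool.Agent.H11.CE.Base

/-!
# Critical exponents: module B9, few bad maps and the choice of the graph
-/

set_option autoImplicit false

noncomputable section

namespace CE.H11

open scoped Classical

/-- maps into `L1` vanishing on `Y` -/
theorem card_vanish {F : Type} [Field F] [Finite F] {W E : Type} [AddCommGroup W] [Module F W] [Finite W]
    [AddCommGroup E] [Module F E] [Finite E] (L1 : Submodule F E) (Y : Submodule F W)
    (S : Finset (W →ₗ[F] E)) (hS : ∀ l ∈ S, ∀ l' ∈ S, (∀ w, l w - l' w ∈ L1) ∧ ∀ w ∈ Y, l w = l' w) :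
    S.card ≤ Nat.card L1 ^ (Module.finrank F W - Module.finrank F Y) := by
  rcases S.eq_empty_or_nonempty with rfl | ⟨l0, hl0⟩
  · simp
  have : Finite (W ⧸ Y) := Finite.of_surjective _ Y.mkQ_surjective
  have h1 : Nat.card ((W ⧸ Y) →ₗ[F] L1) = Nat.card L1 ^ (Module.finrank F W - Module.finrank F Y) := by
    rw [natCard_hom]
    congr 1
    have := Submodule.finrank_quotient_add_finrank Y
    omega
  rw [← h1]
  have : Fintype ((W ⧸ Y) →ₗ[F] L1) := Fintype.ofFinite _
  rw [Nat.card_eq_fintype_card, ← Finset.card_univ]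
  -- the difference
  set dif : (l : W →ₗ[F] E) → l ∈ S → (W →ₗ[F] L1) := fun l hl =>
    LinearMap.codRestrict L1 (l - l0) fun w => (hS l hl l0 hl0).1 w with hdif
  have hker : ∀ l (hl : l ∈ S), Y ≤ LinearMap.ker (dif l hl) := by
    intro l hl w hw
    rw [LinearMap.mem_ker]
    apply Subtype.ext
    show l w - l0 w = 0
    rw [(hS l hl l0 hl0).2 w hw, sub_self]
  refine Finset.card_le_card_of_injOn (fun l => if hl : l ∈ S then Y.liftQ (dif l hl) (hker l hl) else 0)
    (fun _ _ => Finset.mem_coe.2 (Finset.mem_univ _)) ?_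
  intro l hl l' hl' heq
  rw [Finset.mem_coe] at hl hl'
  simp only [dif_pos hl, dif_pos hl'] at heq
  refine LinearMap.ext fun w => ?_
  have h2 := LinearMap.congr_fun heq (Y.mkQ w)
  rw [Submodule.mkQ_apply, Submodule.liftQ_apply, Submodule.liftQ_apply] at h2
  have h3 : l w - l0 w = l' w - l0 w := congrArg Subtype.val h2
  exact sub_left_injective h3

theorem bad : T_BAD := by
  intro F _ _ V _ _ _ E _ _ _ ι v A f W z L1 L2 m2 hA hL
  have : Fintype (W →ₗ[F] E) := Fintype.ofFinite _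
  set S := {l : W →ₗ[F] E | (∀ w, l w ∈ L1) ∧ m2 ≤ Module.finrank F
        (sp F v (A.filter (fun i => ∃ h : v i ∈ W, z (v i) + l ⟨v i, h⟩ - f i ∈ L2)))} with hS
  rw [Set.ncard_eq_toFinset_card' S]
  set K : Finset (Finset ι) := (A.powersetCard m2).filter fun A' => Ind F v ⊥ A' with hK
  set Q : Finset ι → Finset (W →ₗ[F] E) := fun A' => Finset.univ.filter fun l =>
    (∀ w, l w ∈ L1) ∧ ∀ i ∈ A', ∃ h : v i ∈ W, z (v i) + l ⟨v i, h⟩ - f i ∈ L2 with hQ
  have hsub : S.toFinset ⊆ K.biUnion Q := by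
    intro l hl
    rw [Set.mem_toFinset] at hl
    obtain ⟨hl1, hl2⟩ := hl
    set A0 := A.filter (fun i => ∃ h : v i ∈ W, z (v i) + l ⟨v i, h⟩ - f i ∈ L2) with hA0
    obtain ⟨B, hB, hBind, hBsp⟩ := exists_basis v (⊥ : Submodule F V) A0
    have h1 := finrank_ind hBind
    rw [hBsp, bot_sup_eq, finrank_bot, zero_add] at h1
    rw [h1] at hl2
    obtain ⟨A', hA', hA'c⟩ := Finset.exists_subset_card_eq hl2
    rw [Finset.mem_biUnion]
    refine ⟨A', ?_, ?_⟩
    · rw [hK, Finset.mem_filter, Finset.mem_powersetCard]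
      exact ⟨⟨(hA'.trans hB).trans (Finset.filter_subset _ _), hA'c⟩, Ind.mono' hBind hA'⟩
    · rw [hQ, Finset.mem_filter]
      exact ⟨Finset.mem_univ _, hl1, fun i hi => (Finset.mem_filter.1 (hB (hA' hi))).2⟩
  have hcard : ∀ A' ∈ K, (Q A').card ≤ Nat.card L1 ^ (Module.finrank F W - m2) := by
    intro A' hA'
    rw [hK, Finset.mem_filter, Finset.mem_powersetCard] at hA'
    obtain ⟨⟨hA'A, hA'c⟩, hA'ind⟩ := hA'
    set Y : Submodule F W := Submodule.comap W.subtype (sp F v A') with hY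
    have hle : sp F v A' ≤ W := (sp_le_iff v _ _).2 fun i hi => hA i (hA'A hi)
    have hYrk : Module.finrank F Y = m2 := by
      rw [hY, (Submodule.comapSubtypeEquivOfLe hle).finrank_eq]
      have h1 := finrank_ind hA'ind
      rwa [bot_sup_eq, finrank_bot, zero_add, hA'c] at h1
    rw [← hYrk]
    refine card_vanish L1 Y (Q A') ?_
    intro l hl l' hl'
    rw [hQ, Finset.mem_filter] at hl hl'
    obtain ⟨-, hl1, hl2⟩ := hl
    obtain ⟨-, hl1', hl2'⟩ := hl'
    refine ⟨fun w => L1.sub_mem (hl1 w) (hl1' w), ?_⟩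
    have h1 : sp F v A' ≤ (LinearMap.eqLocus l l').map W.subtype := by
      refine (sp_le_iff v _ _).2 fun i hi => ?_
      obtain ⟨h, h3⟩ := hl2 i hi
      obtain ⟨h', h3'⟩ := hl2' i hi
      refine ⟨⟨v i, h⟩, ?_, rfl⟩
      show l ⟨v i, h⟩ = l' ⟨v i, h⟩
      have h4 : l ⟨v i, h⟩ - l' ⟨v i, h⟩ ∈ L1 ⊓ L2 := by
        refine ⟨L1.sub_mem (hl1 _) (hl1' _), ?_⟩
        have h5 : l ⟨v i, h⟩ - l' ⟨v i, h⟩ =
            (z (v i) + l ⟨v i, h⟩ - f i) - (z (v i) + l' ⟨v i, h'⟩ - f i) := by abel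
        rw [h5]
        exact L2.sub_mem h3 h3'
      rw [hL, Submodule.mem_bot] at h4
      exact sub_eq_zero.1 h4
    intro w hw
    obtain ⟨w', hw', hww⟩ := h1 hw
    have : w' = w := Subtype.ext hww
    rw [← this]
    exact hw'
  calc S.toFinset.card ≤ (K.biUnion Q).card := Finset.card_le_card hsub
    _ ≤ K.card * Nat.card L1 ^ (Module.finrank F W - m2) := Finset.card_biUnion_le_card_mul _ _ _ hcard
    _ ≤ _ := by
      refine Nat.mul_le_mul_right _ ?_
      refine (Finset.card_filter_le _ _).trans ?_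
      rw [Finset.card_powersetCard]

theorem choice_aux {F : Type} [Field F] [Finite F] {U : Type} [AddCommGroup U] [Module F U] [Finite U]
    [Fintype (U →ₗ[F] U)] (a b : U) (h : (a, b) ≠ 0) :
    (Finset.univ.filter fun φ : U →ₗ[F] U => b = φ a).card * Nat.card U ≤ Fintype.card (U →ₗ[F] U) := by
  have : Fintype U := Fintype.ofFinite _
  rcases eq_or_ne a 0 with rfl | ha
  · have hb : b ≠ 0 := by
      rintro rfl
      exact h rfl
    have : (Finset.univ.filter fun φ : U →ₗ[F] U => b = φ 0) = ∅ := by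
      refine Finset.filter_eq_empty_iff.2 fun φ _ => ?_
      rw [map_zero]
      exact hb
    rw [this]
    simp
  · have h1 := card_vanish (⊤ : Submodule F U) (Submodule.span F {a})
      (Finset.univ.filter fun φ : U →ₗ[F] U => b = φ a) (by
        intro l hl l' hl'
        rw [Finset.mem_filter] at hl hl'
        refine ⟨fun w => Submodule.mem_top, fun w hw => ?_⟩
        obtain ⟨c, rfl⟩ := Submodule.mem_span_singleton.1 hw
        rw [map_smul, map_smul, ← hl.2, ← hl'.2])
    rw [finrank_span_singleton ha] at h1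
    have h2 : Nat.card (⊤ : Submodule F U) = Nat.card U :=
      Nat.card_congr (Submodule.topEquiv (R := F) (M := U)).toEquiv
    rw [h2] at h1
    have h3 : Fintype.card (U →ₗ[F] U) = Nat.card U ^ Module.finrank F U := by
      rw [← Nat.card_eq_fintype_card, natCard_hom]
    have h4 : 1 ≤ Module.finrank F U := by
      have : Nontrivial U := ⟨a, 0, ha⟩
      exact Module.finrank_pos
    rw [h3]
    calc _ ≤ Nat.card U ^ (Module.finrank F U - 1) * Nat.card U := Nat.mul_le_mul_right _ h1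
      _ = _ := by
        rw [← pow_succ, Nat.sub_add_cancel h4]

theorem choice : T_CHOICE := by
  intro F _ _ U _ _ _ ι A e he
  have : Fintype (U →ₗ[F] U) := Fintype.ofFinite _
  by_contra hcon
  push Not at hcon
  have h1 : ∑ φ : U →ₗ[F] U, A.card <
      ∑ φ : U →ₗ[F] U, (A.filter (fun i => (e i).2 = φ (e i).1)).card * Nat.card U :=
    Finset.sum_lt_sum_of_nonempty Finset.univ_nonempty fun φ _ => hcon φ
  rw [← Finset.sum_mul] at h1
  have h2 : ∑ φ : U →ₗ[F] U, (A.filter (fun i => (e i).2 = φ (e i).1)).card =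
      ∑ i ∈ A, (Finset.univ.filter fun φ : U →ₗ[F] U => (e i).2 = φ (e i).1).card := by
    simp only [Finset.card_filter]
    exact Finset.sum_comm
  rw [h2, Finset.sum_mul] at h1
  have h3 : ∑ i ∈ A, (Finset.univ.filter fun φ : U →ₗ[F] U => (e i).2 = φ (e i).1).card * Nat.card U ≤
      ∑ _i ∈ A, Fintype.card (U →ₗ[F] U) :=
    Finset.sum_le_sum fun i hi => choice_aux (e i).1 (e i).2 (he i hi)
  rw [Finset.sum_const] at h1 h3
  rw [Finset.card_univ] at h1
  simp only [smul_eq_mul] at h1 h3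
  rw [mul_comm] at h1
  omega

end CE.H11
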