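import Pool.Agent.H99.CE.Targets

/-!
# MP_65efe8_pr, row BDC: decomposition at the first long excursion above the interface
-/

set_option autoImplicit false

open MeasureTheory ProbabilityTheory Filter Topology
open scoped ENNReal
open Pool.Agent.H95 Pool.Agent.H95.Cop Pool.Agent.H96.Cop Pool.Agent.H99.CE

namespace Pool.Agent.H11.CE

theorem sum_le_of_inj {α β : Type} (A : Finset α) (T : Finset β) (f : α → ℝ≥0∞)
    (g : β → ℝ≥0∞) (φ : α → β) (h1 : ∀ a ∈ A, f a ≠ 0 → φ a ∈ T ∧ f a ≤ g (φ a))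
    (h2 : ∀ a ∈ A, ∀ a' ∈ A, f a ≠ 0 → f a' ≠ 0 → φ a = φ a' → a = a') :
    ∑ a ∈ A, f a ≤ ∑ b ∈ T, g b := by
  classical
  have e1 : ∑ a ∈ A, f a = ∑ a ∈ A.filter (fun a => f a ≠ 0), f a :=
    (Finset.sum_filter_ne_zero A).symm
  rw [e1]
  calc ∑ a ∈ A.filter (fun a => f a ≠ 0), f a
      ≤ ∑ a ∈ A.filter (fun a => f a ≠ 0), g (φ a) := by
        refine Finset.sum_le_sum fun a ha => ?_
        rw [Finset.mem_filter] at ha
        exact (h1 a ha.1 ha.2).2
    _ = ∑ b ∈ (A.filter (fun a => f a ≠ 0)).image φ, g b := by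
        rw [Finset.sum_image]
        intro a ha a' ha' h
        rw [Finset.mem_coe, Finset.mem_filter] at ha ha'
        exact h2 a ha.1 a' ha'.1 ha.2 ha'.2 h
    _ ≤ ∑ b ∈ T, g b := by
        refine Finset.sum_le_sum_of_subset fun b hb => ?_
        obtain ⟨a, ha, rfl⟩ := Finset.mem_image.mp hb
        rw [Finset.mem_filter] at ha
        exact (h1 a ha.1 ha.2).1

theorem rot {α β γ : Type} (A : Finset α) (B : Finset β) (C : Finset γ)
    (h : α → β → γ → ℝ≥0∞) : ∑ a ∈ A, ∑ b ∈ B, ∑ c ∈ C, h a b c =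
      ∑ c ∈ C, ∑ a ∈ A, ∑ b ∈ B, h a b c :=
  (Finset.sum_congr rfl fun _ _ => Finset.sum_comm).trans Finset.sum_comm

theorem factor (B : ℕ) (X Y : ℕ → ℕ → ℝ≥0∞) (c : ℝ≥0∞) :
    ∑ e ∈ Finset.range B, ∑ r ∈ Finset.range B, ∑ r1 ∈ Finset.range B, ∑ e2 ∈ Finset.range B,
      X e r1 * (c * Y e2 r) = (∑ e ∈ Finset.range B, ∑ r1 ∈ Finset.range B, X e r1) *
      (c * ∑ e2 ∈ Finset.range B, ∑ r ∈ Finset.range B, Y e2 r) := by
  rw [Finset.sum_mul]
  refine Finset.sum_congr rfl fun e _ => ?_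
  rw [Finset.sum_mul, Finset.sum_comm]
  refine Finset.sum_congr rfl fun r1 _ => ?_
  rw [Finset.sum_comm, Finset.mul_sum, Finset.mul_sum]
  refine Finset.sum_congr rfl fun e2 _ => ?_
  rw [Finset.mul_sum, Finset.mul_sum]

/-- the terms of the bound -/
noncomputable def gT (W W' : ℕ → (ℕ → ℝ) → ℝ≥0∞) (l : ℕ → ℝ≥0∞) (B j e r : ℕ) (x : ℕ → ℝ)
    (q : ℕ × ℕ × ℕ × ℕ) : ℝ≥0∞ :=
  if q.1 + q.2.1 ≤ j then
    (if e ≤ q.1 * B + q.2.2.1 then PF W (q.1 * B + q.2.2.1 - e) (shift e x) else 0) *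
    (l q.2.1 * (if q.2.2.2 ≤ (j - q.1 - q.2.1) * B + r then
      PF W' ((j - q.1 - q.2.1) * B + r - q.2.2.2)
        (shift q.2.2.2 (shift ((q.1 + q.2.1) * B) x)) else 0)) else 0

theorem one_pair (hPFD : T_PFD) (K : PMF ℕ) (B B' : ℕ) (l : ℕ → ℝ≥0∞) (hB : 1 ≤ B)
    (hBB : B ≤ B') (hl : ∀ D m : ℕ, 1 ≤ D → B < m → m ≤ B' → (D - 1) * B < m →
      m < (D + 1) * B → pk K m * 2⁻¹ ≤ l D) (j e r : ℕ) (x : ℕ → ℝ) (he : e < B) (hr : r < B)
    (her : e ≤ j * B + r) :
    PF (w1 K B') (j * B + r - e) (shift e x) ≤ PF (w1 K B) (j * B + r - e) (shift e x) +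
      ∑ q ∈ Finset.range (j + 1) ×ˢ (Finset.Icc 1 j ×ˢ (Finset.range B ×ˢ Finset.range B)),
        gT (w1 K B) (w1 K B') l B j e r x q := by
  set w' : ℕ → (ℕ → ℝ) → ℝ≥0∞ := fun m _ => if B < m ∧ m ≤ B' then pk K m * 2⁻¹ else 0
    with hw'
  have hw : (fun n x => w1 K B n x + w' n x) = w1 K B' := by
    funext n y
    simp only [w1, wa, hw']
    by_cases h1 : n ≤ B
    · rw [if_pos h1, if_pos (h1.trans hBB), if_neg (by omega), add_zero]
    · by_cases h2 : n ≤ B'
      · rw [if_neg h1, if_pos h2, if_pos ⟨by omega, h2⟩, zero_add, add_comm]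
      · rw [if_neg h1, if_neg h2, if_neg (by omega), add_zero]
  set s : ℕ := j * B + r - e with hs
  have key := hPFD (w1 K B) w' s (shift e x)
  rw [hw] at key
  refine key.trans (add_le_add le_rfl ?_)
  rw [← Finset.sum_product']
  refine sum_le_of_inj _ _ _ _ (fun p : ℕ × ℕ => ((p.1 + e) / B, (p.1 + e + p.2) / B -
    (p.1 + e) / B, (p.1 + e) % B, (p.1 + e + p.2) % B)) ?_ ?_
  · rintro ⟨t, m⟩ hp hne
    rw [Finset.mem_product, Finset.mem_range, Finset.mem_Icc] at hp
    simp only at hp hne ⊢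
    have c1 : t + m ≤ s := by
      by_contra h
      exact hne (if_neg h)
    have c2 : B < m ∧ m ≤ B' := by
      by_contra h
      apply hne
      rw [if_pos c1]
      simp only [hw', if_neg h, zero_mul, mul_zero]
    obtain ⟨u, hu⟩ : ∃ u, u = (t + e) / B := ⟨_, rfl⟩
    obtain ⟨r1, hr1⟩ : ∃ r1, r1 = (t + e) % B := ⟨_, rfl⟩
    obtain ⟨v, hv⟩ : ∃ v, v = (t + e + m) / B := ⟨_, rfl⟩
    obtain ⟨e2, he2⟩ : ∃ e2, e2 = (t + e + m) % B := ⟨_, rfl⟩
    rw [← hu, ← hr1, ← hv, ← he2]
    have d1 : u * B + r1 = t + e := by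
      rw [hu, hr1, mul_comm]
      exact Nat.div_add_mod (t + e) B
    have d2 : v * B + e2 = t + e + m := by
      rw [hv, he2, mul_comm]
      exact Nat.div_add_mod (t + e + m) B
    have d3 : r1 < B := hr1 ▸ Nat.mod_lt _ hB
    have d4 : e2 < B := he2 ▸ Nat.mod_lt _ hB
    have d5 : u < v := by
      by_contra h
      have h1 : v * B ≤ u * B := Nat.mul_le_mul_right B (by omega)
      omega
    have d6 : v ≤ j := by
      by_contra h
      have h1 : (j + 1) * B ≤ v * B := Nat.mul_le_mul_right B (by omega)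
      have h2 : (j + 1) * B = j * B + B := by ring
      omega
    have d7 : u + (v - u) = v := by omega
    refine ⟨?_, ?_⟩
    · simp only [Finset.mem_product, Finset.mem_range, Finset.mem_Icc]
      omega
    · rw [if_pos c1]
      simp only [hw', if_pos c2]
      unfold gT
      simp only
      rw [d7, if_pos d6, if_pos (by omega : e ≤ u * B + r1)]
      have f1 : u * B + r1 - e = t := by omega
      have f2 : (j - u - (v - u)) * B = j * B - v * B := by
        rw [show j - u - (v - u) = j - v by omega, Nat.sub_mul]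
      have f3 : v * B ≤ j * B := Nat.mul_le_mul_right B d6
      rw [f1, f2, if_pos (by omega : e2 ≤ j * B - v * B + r)]
      have f4 : j * B - v * B + r - e2 = s - t - m := by omega
      have f5 : shift (t + m) (shift e x) = shift e2 (shift (v * B) x) := by
        rw [shift_shift, shift_shift]
        congr 1
        omega
      rw [f4, f5]
      refine mul_le_mul_right (mul_le_mul_left (hl (v - u) m (by omega) c2.1 c2.2 ?_ ?_) _) _
      · have g1 : (v - u - 1) * B = v * B - u * B - B := by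
          rw [Nat.sub_mul, Nat.sub_mul, one_mul]
        omega
      · have g1 : (v - u + 1) * B = v * B - u * B + B := by
          rw [Nat.add_mul, Nat.sub_mul, one_mul]
        have g2 : u * B ≤ v * B := Nat.mul_le_mul_right B d5.le
        omega
  · rintro ⟨t, m⟩ - ⟨t', m'⟩ - - - h
    simp only [Prod.mk.injEq] at h
    obtain ⟨h1, h2, h3, h4⟩ := h
    have g1 := Nat.div_add_mod (t + e) B
    have g2 := Nat.div_add_mod (t' + e) B
    have g3 := Nat.div_add_mod (t + e + m) B
    have g4 := Nat.div_add_mod (t' + e + m') B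
    have g5 : (t + e) / B ≤ (t + e + m) / B := Nat.div_le_div_right (by omega)
    have g6 : (t' + e) / B ≤ (t' + e + m') / B := Nat.div_le_div_right (by omega)
    have g7 : (t + e + m) / B = (t' + e + m') / B := by omega
    rw [h1, h3] at g1
    rw [g7, h4] at g3
    have : t = t' := by omega
    have : m = m' := by omega
    simp [*]

theorem pf_BDC (hPFD : T_PFD) : T_BDC := by
  intro K B B' l hB hBB hl j x
  have h1 : BX (w1 K B') B j x ≤ ∑ e ∈ Finset.range B, ∑ r ∈ Finset.range B,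
      ((if e ≤ j * B + r then PF (w1 K B) (j * B + r - e) (shift e x) else 0) +
      ∑ q ∈ Finset.range (j + 1) ×ˢ (Finset.Icc 1 j ×ˢ (Finset.range B ×ˢ Finset.range B)),
        gT (w1 K B) (w1 K B') l B j e r x q) := by
    unfold BX
    refine Finset.sum_le_sum fun e he => Finset.sum_le_sum fun r hr => ?_
    rw [Finset.mem_range] at he hr
    by_cases her : e ≤ j * B + r
    · rw [if_pos her, if_pos her]
      exact one_pair hPFD K B B' l hB hBB hl j e r x he hr her
    · rw [if_neg her]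
      exact zero_le
  refine h1.trans (le_of_eq ?_)
  simp only [Finset.sum_add_distrib]
  congr 1
  simp only [Finset.sum_product]
  rw [rot]
  refine Finset.sum_congr rfl fun b _ => ?_
  rw [rot]
  refine Finset.sum_congr rfl fun D _ => ?_
  unfold gT
  simp only
  by_cases h : b + D ≤ j
  · simp only [if_pos h]
    rw [factor B (fun e r1 => if e ≤ b * B + r1 then PF (w1 K B) (b * B + r1 - e) (shift e x)
      else 0) (fun e2 r => if e2 ≤ (j - b - D) * B + r then
        PF (w1 K B') ((j - b - D) * B + r - e2) (shift e2 (shift ((b + D) * B) x)) else 0) (l D)]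
    rfl
  · simp only [if_neg h, Finset.sum_const_zero]

end Pool.Agent.H11.CE
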