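import Pool.Agent.H49.CE.Targets

/-!
# Critical exponents: common lemmas on independence modulo a subspace
-/

set_option autoImplicit false

noncomputable section

namespace CE.H11

open scoped Classical

section

variable {F : Type} [Field F] {V ι : Type} [AddCommGroup V] [Module F V]

theorem sp_insert (v : ι → V) (a : ι) (S : Finset ι) :
    sp F v (insert a S) = Submodule.span F {v a} ⊔ sp F v S := by
  unfold sp
  rw [Finset.coe_insert, Set.image_insert_eq, Submodule.span_insert]

theorem sp_mono (v : ι → V) {S T : Finset ι} (h : S ⊆ T) : sp F v S ≤ sp F v T :=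
  Submodule.span_mono (Set.image_mono (Finset.coe_subset.2 h))

theorem mem_sp (v : ι → V) {i : ι} {S : Finset ι} (h : i ∈ S) : v i ∈ sp F v S :=
  Submodule.subset_span ⟨i, h, rfl⟩

theorem sp_le_iff (v : ι → V) (S : Finset ι) (Y : Submodule F V) :
    sp F v S ≤ Y ↔ ∀ i ∈ S, v i ∈ Y := by
  unfold sp
  rw [Submodule.span_le]
  constructor
  · intro h i hi
    exact h ⟨i, hi, rfl⟩
  · rintro h _ ⟨i, hi, rfl⟩
    exact h i hi

theorem span_mkQ (v : ι → V) (W : Submodule F V) (S : Set ι) :
    Submodule.span F ((fun i => W.mkQ (v i)) '' S) = (Submodule.span F (v '' S)).map W.mkQ := by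
  rw [Submodule.map_span, Set.image_image]

theorem mkQ_mem_iff (v : ι → V) (W : Submodule F V) (S : Set ι) (x : V) :
    W.mkQ x ∈ Submodule.span F ((fun i => W.mkQ (v i)) '' S) ↔ x ∈ W ⊔ Submodule.span F (v '' S) := by
  rw [span_mkQ, ← Submodule.comap_map_mkQ, Submodule.mem_comap]

theorem ind_iff (v : ι → V) (W : Submodule F V) (J : Finset ι) :
    Ind F v W J ↔ LinearIndepOn F (fun i => W.mkQ (v i)) (J : Set ι) := by
  rw [linearIndepOn_finset_iff]
  unfold Ind
  refine forall_congr' fun c => ?_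
  have : ∑ i ∈ J, c i • W.mkQ (v i) = W.mkQ (∑ i ∈ J, c i • v i) := by
    rw [map_sum]
    simp
  rw [this, Submodule.mkQ_apply, Submodule.Quotient.mk_eq_zero]

theorem ind_iff_notMem (v : ι → V) (W : Submodule F V) (J : Finset ι) :
    Ind F v W J ↔ ∀ i ∈ J, v i ∉ W ⊔ sp F v (J.erase i) := by
  rw [ind_iff, linearIndepOn_iff_notMem_span]
  refine forall_congr' fun i => ?_
  rw [Finset.mem_coe]
  refine imp_congr_right fun hi => not_congr ?_
  rw [mkQ_mem_iff, sp, Finset.coe_erase]

theorem Ind.mono' {v : ι → V} {W : Submodule F V} {J J' : Finset ι} (h : Ind F v W J)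
    (h' : J' ⊆ J) : Ind F v W J' := by
  rw [ind_iff] at h ⊢
  exact h.mono (Finset.coe_subset.2 h')

theorem exists_basis (v : ι → V) (W : Submodule F V) (R : Finset ι) :
    ∃ B : Finset ι, B ⊆ R ∧ Ind F v W B ∧ W ⊔ sp F v B = W ⊔ sp F v R := by
  obtain ⟨b, hb, -, h1, h2⟩ := exists_linearIndepOn_extension (K := F)
    (v := fun i => W.mkQ (v i)) (s := ∅) (t := (R : Set ι)) (linearIndepOn_empty F _)
    (Set.empty_subset _)
  have hfin : b.Finite := R.finite_toSet.subset hb
  refine ⟨hfin.toFinset, ?_, ?_, ?_⟩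
  · intro i hi
    exact hb (hfin.mem_toFinset.1 hi)
  · rw [ind_iff, hfin.coe_toFinset]
    exact h2
  · apply le_antisymm
    · refine sup_le_sup_left (sp_mono v ?_) _
      intro i hi
      exact hb (hfin.mem_toFinset.1 hi)
    · refine sup_le le_sup_left ((sp_le_iff v R _).2 fun i hi => ?_)
      have := h1 ⟨i, hi, rfl⟩
      have h3 := (mkQ_mem_iff v W b (v i)).1 this
      rw [sp, hfin.coe_toFinset]
      exact h3

theorem exchange (v : ι → V) (Y : Submodule F V) {a b : ι} (h1 : v a ∈ Y ⊔ Submodule.span F {v b})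
    (h2 : v a ∉ Y) : v b ∈ Y ⊔ Submodule.span F {v a} := by
  rw [Submodule.mem_sup] at h1 ⊢
  obtain ⟨y, hy, w, hw, h⟩ := h1
  obtain ⟨c, rfl⟩ := Submodule.mem_span_singleton.1 hw
  have hc : c ≠ 0 := by
    rintro rfl
    rw [zero_smul, add_zero] at h
    exact h2 (h ▸ hy)
  refine ⟨-(c⁻¹ • y), Y.neg_mem (Y.smul_mem _ hy), c⁻¹ • v a,
    Submodule.mem_span_singleton.2 ⟨c⁻¹, rfl⟩, ?_⟩
  rw [← h, smul_add, smul_smul, inv_mul_cancel₀ hc, one_smul]
  abel

variable [Finite V]

theorem finrank_map_mkQ [Finite F] {W Y : Submodule F V} (h : W ≤ Y) :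
    Module.finrank F (Y.map W.mkQ) + Module.finrank F W = Module.finrank F Y := by
  have h1 := LinearMap.finrank_range_add_finrank_ker (W.mkQ.domRestrict Y)
  rw [LinearMap.range_domRestrict] at h1
  have h2 : LinearMap.ker (W.mkQ.domRestrict Y) = Submodule.comap Y.subtype W := by
    ext x
    simp
  rw [h2, (Submodule.comapSubtypeEquivOfLe h).finrank_eq] at h1
  exact h1

theorem finrank_ind [Finite F] {v : ι → V} {W : Submodule F V} {J : Finset ι} (h : Ind F v W J) :
    Module.finrank F (W ⊔ sp F v J : Submodule F V) = Module.finrank F W + J.card := by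
  rw [← finrank_map_mkQ (show W ≤ W ⊔ sp F v J from le_sup_left), Submodule.map_sup]
  have h1 : W.map W.mkQ = ⊥ := by
    rw [eq_bot_iff, Submodule.map_le_iff_le_comap, Submodule.comap_bot, Submodule.ker_mkQ]
  rw [h1, bot_sup_eq, sp, ← span_mkQ]
  rw [ind_iff] at h
  have h2 := finrank_span_eq_card h
  have h3 : Set.range (fun x : (J : Set ι) => W.mkQ (v x)) = (fun i => W.mkQ (v i)) '' (J : Set ι) := by
    ext y
    simp
  rw [h3] at h2
  rw [h2]
  simp [add_comm]

theorem ind_of_card [Finite F] {v : ι → V} {W : Submodule F V} {J : Finset ι}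
    (h : Module.finrank F W + J.card ≤ Module.finrank F (W ⊔ sp F v J : Submodule F V)) :
    Ind F v W J := by
  obtain ⟨B, hB, hB1, hB2⟩ := exists_basis v W J
  have h1 := finrank_ind hB1
  rw [hB2] at h1
  have h2 : J.card ≤ B.card := by omega
  rwa [Finset.eq_of_subset_of_card_le hB h2] at hB1

theorem natCard_hom [Finite F] (X Y : Type) [AddCommGroup X] [Module F X] [Finite X]
    [AddCommGroup Y] [Module F Y] [Finite Y] :
    Nat.card (X →ₗ[F] Y) = Nat.card Y ^ Module.finrank F X := by
  rw [Module.natCard_eq_pow_finrank (K := F) (V := (X →ₗ[F] Y)),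
    Module.natCard_eq_pow_finrank (K := F) (V := Y), ← pow_mul, Module.finrank_linearMap F F X Y,
    mul_comm]

instance finite_hom (X Y : Type) [AddCommGroup X] [Module F X] [Finite X]
    [AddCommGroup Y] [Module F Y] [Finite Y] : Finite (X →ₗ[F] Y) :=
  Finite.of_injective (fun g : X →ₗ[F] Y => (g : X → Y)) DFunLike.coe_injective

end

end CE.H11
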